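import Pool.Agent.H7.HZ.Stmts

/-!
# Board hz12, row DLB: the deficits in a block
-/

set_option autoImplicit false

open Finset

namespace Pool.HZ7

open Pool.Agent.H23.KT Pool.Agent.H46.KW Pool.KQ Pool.GT7 Pool.GU7

private theorem dlb_nb_add_non {V : Type} (G : SimpleGraph V) (X : Finset V) (u : V) :
    (nb G X u).card + (non G X u).card = X.card := by
  classical
  unfold nb non
  exact Finset.card_filter_add_card_filter_not _

private theorem dlb_card_un {V : Type} [DecidableEq V] {G : SimpleGraph V} {b : ℕ}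
    {Q : Fin b → Finset V} (hQ : Par G Q) : (un Q).card = ∑ j, (Q j).card := by
  unfold un
  exact Finset.card_biUnion (fun i _ j _ hij => hQ.dis i j hij)

private theorem dlb_card_nb_un {V : Type} [DecidableEq V] {G : SimpleGraph V} {b : ℕ}
    {Q : Fin b → Finset V} (hQ : Par G Q) (u : V) :
    (nb G (un Q) u).card = ∑ k, (nb G (Q k) u).card := by
  classical
  have h : nb G (un Q) u = univ.biUnion (fun k => nb G (Q k) u) := by
    ext y
    simp only [mem_nb, un, mem_biUnion, mem_univ, true_and]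
    constructor
    · rintro ⟨⟨k, hk⟩, hadj⟩
      exact ⟨k, hk, hadj⟩
    · rintro ⟨k, hk, hadj⟩
      exact ⟨⟨k, hk⟩, hadj⟩
  rw [h]
  apply Finset.card_biUnion
  intro i _ j _ hij
  exact Finset.disjoint_of_subset_left (fun y hy => ((mem_nb G).mp hy).1)
    (Finset.disjoint_of_subset_right (fun y hy => ((mem_nb G).mp hy).1) (hQ.dis i j hij))

private theorem dlb_even {n : ℕ} (f : Fin n → Fin n → ℕ) (hf : ∀ i k, f i k = f k i) :
    Even (∑ i, ∑ k ∈ univ.erase i, f i k) := by
  have h1 : ∀ i, ∑ k ∈ univ.erase i, f i k =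
      ∑ k, (if i < k then f i k else 0) + ∑ k, (if k < i then f i k else 0) := by
    intro i
    rw [← Finset.sum_add_distrib]
    have h2 : (univ.erase i : Finset (Fin n)) = univ.filter (fun k => k ≠ i) := by
      ext k
      simp
    rw [h2, Finset.sum_filter]
    apply Finset.sum_congr rfl
    intro k _
    rcases lt_trichotomy i k with h | h | h
    · rw [if_pos h.ne', if_pos h, if_neg (not_lt.mpr h.le), add_zero]
    · subst h
      simp
    · rw [if_pos h.ne, if_neg (not_lt.mpr h.le), if_pos h, zero_add]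
  have h3 : ∑ i, ∑ k, (if k < i then f i k else 0) = ∑ i, ∑ k, (if i < k then f i k else 0) := by
    rw [Finset.sum_comm]
    apply Finset.sum_congr rfl
    intro i _
    apply Finset.sum_congr rfl
    intro k _
    rw [hf k i]
  refine ⟨∑ i, ∑ k, (if i < k then f i k else 0), ?_⟩
  rw [Finset.sum_congr rfl (fun i _ => h1 i), Finset.sum_add_distrib, h3]

private theorem dlb_cross {V : Type} [DecidableEq V] (G : SimpleGraph V) (X Y : Finset V) :
    ∑ u ∈ X, (non G Y u).card = ∑ u ∈ Y, (non G X u).card := by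
  classical
  have h1 : ∀ (A B : Finset V), ∑ u ∈ A, (non G B u).card =
      ∑ u ∈ A, ∑ w ∈ B, (if ¬ G.Adj u w then 1 else 0) := by
    intro A B
    apply Finset.sum_congr rfl
    intro u _
    unfold non
    rw [Finset.card_filter]
  rw [h1, h1, Finset.sum_comm]
  apply Finset.sum_congr rfl
  intro u _
  apply Finset.sum_congr rfl
  intro w _
  simp only [G.adj_comm]

private theorem dlb_tot_even {V : Type} [DecidableEq V] (G : SimpleGraph V) {b : ℕ}
    (Q : Fin b → Finset V) : Even (tot G Q) := by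
  unfold tot
  exact dlb_even (fun i k => ∑ u ∈ Q i, (non G (Q k) u).card)
    (fun i k => dlb_cross G (Q i) (Q k))

theorem DLB_thm : DLBStmt := by
  intro p r hpr C hC
  refine ⟨⌈((p : ℝ) + 5) * C⌉₊, ?_⟩
  intro a _ V _ _ G Q hG hB
  have hPar := hB.par
  have hK : ((p : ℝ) + 5) * C ≤ (⌈((p : ℝ) + 5) * C⌉₊ : ℝ) := Nat.le_ceil _
  set S := un Q with hSdef
  have hrpos : 1 ≤ r := by
    have := hpr.rb
    omega
  have hcardS : S.card = ∑ j, (Q j).card := dlb_card_un hPar
  have hfull : ∀ j, (p + 3) * a + r + (Q j).card ≤ S.card := by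
    intro j
    obtain ⟨v, hv, hdeg, hsub⟩ := hB.full j
    have hdisj : Disjoint (nb G univ v) (Q j) := by
      rw [Finset.disjoint_left]
      intro y hy hyQ
      exact hPar.ind j v hv y hyQ ((mem_nb G).mp hy).2
    rw [← hdeg, ← Finset.card_union_of_disjoint hdisj]
    apply Finset.card_le_card
    apply Finset.union_subset hsub
    intro y hy
    exact Finset.mem_biUnion.mpr ⟨j, mem_univ _, hy⟩
  have hsumfull : (p + 4) * ((p + 3) * a + r) + S.card ≤ (p + 4) * S.card := by
    have h1 : ∑ j : Fin (p + 4), ((p + 3) * a + r + (Q j).card) ≤ ∑ _j : Fin (p + 4), S.card :=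
      Finset.sum_le_sum (fun j _ => hfull j)
    rw [Finset.sum_add_distrib, ← hcardS, Finset.sum_const, Finset.sum_const,
      Finset.card_univ, Fintype.card_fin, smul_eq_mul, smul_eq_mul] at h1
    exact h1
  have hbig : (p + 3) * a + r + a + 1 ≤ S.card := by
    by_contra hcon
    have hle : S.card ≤ (p + 3) * a + r + a := by omega
    have h2 : (p + 3) * S.card ≤ (p + 3) * ((p + 3) * a + r + a) := Nat.mul_le_mul_left _ hle
    nlinarith
  obtain ⟨s', hs'⟩ := Nat.exists_eq_add_of_le hbig
  obtain ⟨s, hs1, hs⟩ : ∃ s, 1 ≤ s ∧ S.card = (p + 3) * a + r + a + s :=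
    ⟨1 + s', by omega, by omega⟩
  have hnj : ∀ j, (Q j).card ≤ a + s := by
    intro j
    have := hfull j
    omega
  let σ : Fin (p + 4) → ℕ := fun j => a + s - (Q j).card
  have hσ : ∀ j, (Q j).card + σ j = a + s := by
    intro j
    have := hnj j
    change (Q j).card + (a + s - (Q j).card) = a + s
    omega
  have hsC : (s : ℝ) ≤ ((p : ℝ) + 4) * C := by
    have h1 : ((S.card : ℕ) : ℝ) ≤ ((p : ℝ) + 4) * (a + C) := by
      rw [hcardS]
      push_cast
      calc ∑ j, ((Q j).card : ℝ) ≤ ∑ _j : Fin (p + 4), ((a : ℝ) + C) :=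
            Finset.sum_le_sum (fun j _ => (hB.siz j).2)
        _ = ((p : ℝ) + 4) * (a + C) := by
            rw [Finset.sum_const, Finset.card_univ, Fintype.card_fin, nsmul_eq_mul]
            push_cast
            ring
    rw [hs] at h1
    push_cast at h1
    have hr0 : (0 : ℝ) ≤ r := Nat.cast_nonneg r
    nlinarith
  have hsum : ∑ j, σ j + r = (p + 3) * s := by
    have h1 : ∑ j, ((Q j).card + σ j) = (p + 4) * (a + s) := by
      rw [Finset.sum_congr rfl (fun j _ => hσ j), Finset.sum_const, Finset.card_univ,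
        Fintype.card_fin, smul_eq_mul]
    rw [Finset.sum_add_distrib, ← hcardS, hs] at h1
    nlinarith
  have hnbS : ∀ u, (nb G S u).card ≤ (p + 3) * a + r := by
    intro u
    refine le_trans (Finset.card_le_card ?_) (hG.deg u)
    intro y hy
    exact (mem_nb G).mpr ⟨mem_univ _, ((mem_nb G).mp hy).2⟩
  have hdl : ∀ u, (nb G S u).card + dl G p r a S u = (p + 3) * a + r := by
    intro u
    have := hnbS u
    unfold dl
    omega
  have hh : ∀ j, ∀ u ∈ Q j, ∑ k ∈ univ.erase j, (non G (Q k) u).card =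
      σ j + dl G p r a S u := by
    intro j u hu
    have h0 : (nb G (Q j) u).card = 0 := by
      rw [Finset.card_eq_zero, Finset.eq_empty_iff_forall_notMem]
      intro y hy
      exact hPar.ind j u hu y ((mem_nb G).mp hy).1 ((mem_nb G).mp hy).2
    have h1 : (nb G S u).card = ∑ k ∈ univ.erase j, (nb G (Q k) u).card := by
      rw [hSdef, dlb_card_nb_un hPar u, ← Finset.add_sum_erase _ _ (mem_univ j), h0, zero_add]
    have h2 : S.card = (Q j).card + ∑ k ∈ univ.erase j, (Q k).card := by
      rw [hcardS, ← Finset.add_sum_erase _ _ (mem_univ j)]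
    have h3 : ∑ k ∈ univ.erase j, (nb G (Q k) u).card +
        ∑ k ∈ univ.erase j, (non G (Q k) u).card = ∑ k ∈ univ.erase j, (Q k).card := by
      rw [← Finset.sum_add_distrib]
      exact Finset.sum_congr rfl (fun k _ => dlb_nb_add_non G (Q k) u)
    have h4 := hdl u
    have h5 := hσ j
    omega
  have htot : tot G Q = ∑ j, (Q j).card * σ j + ∑ u ∈ S, dl G p r a S u := by
    have h1 : ∑ u ∈ S, dl G p r a S u = ∑ j, ∑ u ∈ Q j, dl G p r a S u := by
      rw [hSdef]
      unfold un
      exact Finset.sum_biUnion (fun i _ j _ hij => hPar.dis i j hij)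
    rw [h1, ← Finset.sum_add_distrib]
    unfold tot
    apply Finset.sum_congr rfl
    intro j _
    rw [Finset.sum_comm, Finset.sum_congr rfl (fun u hu => hh j u hu), Finset.sum_add_distrib,
      Finset.sum_const, smul_eq_mul]
  have hmem : ∀ u ∈ S, ∃ j, u ∈ Q j := by
    intro u hu
    rw [hSdef] at hu
    obtain ⟨j, _, hj⟩ := Finset.mem_biUnion.mp hu
    exact ⟨j, hj⟩
  refine ⟨s, σ, hs1, ?_, ?_, hσ, hsum, hs, hh, ?_, ?_, ?_, ?_⟩
  · have : (s : ℝ) ≤ (⌈((p : ℝ) + 5) * C⌉₊ : ℝ) := by nlinarith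
    exact_mod_cast this
  · intro j
    have h1 : ((Q j).card : ℝ) + (σ j : ℝ) = a + s := by exact_mod_cast hσ j
    have h2 := (hB.siz j).1
    have : (σ j : ℝ) ≤ (⌈((p : ℝ) + 5) * C⌉₊ : ℝ) := by nlinarith
    exact_mod_cast this
  · intro u _
    have h1 : (nb G S u).card + (nb G (univ \ S) u).card ≤ (p + 3) * a + r := by
      refine le_trans ?_ (hG.deg u)
      have hdisj : Disjoint (nb G S u) (nb G (univ \ S) u) := by
        rw [Finset.disjoint_left]
        intro y hy hy2
        exact (Finset.mem_sdiff.mp ((mem_nb G).mp hy2).1).2 ((mem_nb G).mp hy).1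
      rw [← Finset.card_union_of_disjoint hdisj]
      apply Finset.card_le_card
      intro y hy
      rcases Finset.mem_union.mp hy with h | h
      · exact (mem_nb G).mpr ⟨mem_univ _, ((mem_nb G).mp h).2⟩
      · exact (mem_nb G).mpr ⟨mem_univ _, ((mem_nb G).mp h).2⟩
    have h2 := hdl u
    omega
  · intro u hu
    obtain ⟨j, hj⟩ := hmem u hu
    have h1 := hB.mis j u hj
    rw [hh j u hj] at h1
    push_cast at h1
    have h2 : (0 : ℝ) ≤ σ j := Nat.cast_nonneg _
    linarith
  · have h1 : ∑ u ∈ S, dl G p r a S u ≤ tot G Q := by omega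
    have h2 : ((∑ u ∈ S, dl G p r a S u : ℕ) : ℝ) ≤ (tot G Q : ℝ) := by exact_mod_cast h1
    exact h2.trans hB.tot
  · rw [← htot]
    exact dlb_tot_even G Q

end Pool.HZ7
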