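import Pool.Agent.H7.HZ.Stmts

/-!
# Board hz12, row NAV: the average deficit of the extremal graph
-/

set_option autoImplicit false

open Finset

namespace Pool.HZ7

open Pool.Agent.H23.KT Pool.Agent.H46.KW Pool.KQ Pool.GT7 Pool.GU7

open Polynomial in
private theorem nav_zero (b a : ℕ) : TT b 1 a 0 = b * a := by
  unfold TT
  rw [pow_zero, one_mul, Nat.sub_zero]
  induction b with
  | zero => simp [coeff_one]
  | succ b ih =>
    have e : ((1 + C a * X : ℕ[X]) ^ (b + 1)) = (1 + C a * X) ^ b +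
        C a * (X * (1 + C a * X) ^ b) := by
      rw [pow_succ]
      ring
    rw [e, coeff_add, coeff_C_mul, ih]
    have h2 : (X * (1 + C a * X : ℕ[X]) ^ b).coeff 1 = ((1 + C a * X : ℕ[X]) ^ b).coeff 0 :=
      coeff_X_mul _ 0
    rw [h2, coeff_zero_eq_eval_zero]
    simp
    ring

private theorem nav_one (hTTR : TTRStmt) (a s : ℕ) : ∀ b, s ≤ b → TT b 1 a s = b * a + s := by
  induction s with
  | zero =>
    intro b _
    rw [nav_zero, add_zero]
  | succ s ih =>
    intro b hb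
    obtain ⟨b', rfl⟩ : ∃ b', b = b' + 1 := ⟨b - 1, by omega⟩
    have h1 := hTTR.1 b' 0 a s (by omega)
    have h2 := hTTR.2.2.1 b' 0 a s (by omega)
    have h3 := ih (b' + 1) (by omega)
    rw [Nat.choose_zero_right, pow_zero, pow_zero, mul_one] at h2
    have h4 : TT b' 0 a s = 1 := le_antisymm h2.2 h2.1
    rw [zero_add] at h1
    rw [h1, h3, h4]
    ring

theorem NAV_thm (hTTR : TTRStmt) : NAVStmt := by
  intro p r hpr
  have hrp := hpr.rp
  refine ⟨(p : ℝ) + 6, by positivity, (p + 3) ^ 2 + (p + 3) + 1, ?_⟩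
  intro a ha
  have hT1 : TT (p + 2) 1 a r = (p + 2) * a + r := nav_one hTTR a r (p + 2) (by omega)
  have hA := hTTR.1 (p + 2) 1 a r (by omega)
  have hB := hTTR.2.1 (p + 2) 1 a (r + 1) (by omega) (by omega)
  have hC := (hTTR.2.2.1 (p + 4) 3 a (r + 1) (by omega)).1
  rw [Nat.add_sub_cancel] at hB
  change TT (p + 3) 2 a (r + 1) = TT (p + 3) 2 a r + TT (p + 2) 1 a r at hA
  change (1 + 2) * TT (p + 4) 3 a (r + 1) + (r + 1) * (a + 1) * TT (p + 2) 1 a r =
    ((p + 2 + 2) * a + (r + 1)) * TT (p + 3) 2 a (r + 1) at hB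
  rw [hA, hT1] at hB
  have hBR := congrArg (Nat.cast : ℕ → ℝ) hB
  push_cast at hBR
  have ha1 : (((p + 3) ^ 2 + (p + 3) + 1 : ℕ) : ℝ) ≤ (a : ℝ) := by exact_mod_cast ha
  push_cast at ha1
  have hp0 : (0 : ℝ) ≤ p := Nat.cast_nonneg p
  have hr0 : (0 : ℝ) ≤ r := Nat.cast_nonneg r
  have hrpR : (r : ℝ) ≤ p := by exact_mod_cast hrp
  have ha0 : (1 : ℝ) ≤ a := by nlinarith
  have hsub : ((p + 3 - r : ℕ) : ℝ) = (p : ℝ) + 3 - r := by
    rw [Nat.cast_sub (by omega)]
    push_cast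
    ring
  have hε0 : 0 ≤ (if Even ((p + 3 - r) * a) then (0 : ℝ) else Xz p r a / 2 - 1) := by
    split_ifs
    · exact le_rfl
    · unfold Xz
      nlinarith
  have hε1 : (if Even ((p + 3 - r) * a) then (0 : ℝ) else Xz p r a / 2 - 1) ≤ Xz p r a / 2 := by
    split_ifs
    · unfold Xz
      nlinarith
    · linarith
  have hkx : kx p r a = (TT (p + 4) 3 a (r + 1) : ℝ) -
      1 / 2 * (((p : ℝ) + 3 - r) * a) * Xz p r a -
      (if Even ((p + 3 - r) * a) then (0 : ℝ) else Xz p r a / 2 - 1) := by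
    unfold kx
    rw [hsub]
  generalize (if Even ((p + 3 - r) * a) then (0 : ℝ) else Xz p r a / 2 - 1) = ε at hε0 hε1 hkx
  have hXz : Xz p r a = ((p : ℝ) + 2) * a + r + 1 := rfl
  rw [hXz] at hε1 hkx
  constructor
  · have h1 : (a : ℝ) ^ 3 ≤ (TT (p + 4) 3 a (r + 1) : ℝ) := by
      have h2 : 1 * a ^ 3 ≤ TT (p + 4) 3 a (r + 1) :=
        le_trans (Nat.mul_le_mul_right _ (Nat.choose_pos (by omega))) hC
      rw [one_mul] at h2
      exact_mod_cast h2
    rw [hkx]
    have h3 : ((p : ℝ) + 2) * a + r + 1 ≤ 2 * ((p : ℝ) + 3) * a := by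
      nlinarith
    have h4 : 1 / 2 * (((p : ℝ) + 3 - r) * a) * (((p : ℝ) + 2) * a + r + 1) ≤
        1 / 2 * (((p : ℝ) + 3) * a) * (2 * ((p : ℝ) + 3) * a) := by
      apply mul_le_mul _ h3 (by positivity) (by positivity)
      nlinarith
    have h5 : (1 : ℝ) * a ^ 2 ≤ (a - ((p : ℝ) + 3) ^ 2 - (p + 3)) * a ^ 2 := by
      apply mul_le_mul_of_nonneg_right _ (by positivity)
      linarith
    have h6 : ((p : ℝ) + 3) * a ≤ (p + 3) * a ^ 2 := by
      apply mul_le_mul_of_nonneg_left _ (by positivity)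
      nlinarith
    have h7 : (1 : ℝ) ≤ a ^ 2 := by nlinarith
    nlinarith
  · have h1 : (TT (p + 3) 2 a r : ℝ) * ((((p + 3) * a + r + a + 1 : ℕ)) : ℝ) - 3 * kx p r a =
        1 / 2 * ((p : ℝ) + 3 - r) * a * (((p : ℝ) + 2) * a + r) +
          3 / 2 * ((p : ℝ) + 3 - r) * a + 3 * ε := by
      rw [hkx]
      push_cast
      linarith
    rw [h1]
    have h2 : (lz p r * a + ((p : ℝ) + 6)) * ((((p + 3) * a + r + a + 1 : ℕ)) : ℝ) =
        1 / 2 * ((p : ℝ) + 2) * ((p : ℝ) + 3 - r) * a ^ 2 + lz p r * a * (r + 1) +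
          ((p : ℝ) + 6) * (((p : ℝ) + 4) * a + r + 1) := by
      unfold lz
      push_cast
      field_simp
      ring
    rw [h2]
    have h3 : 0 ≤ lz p r * a * (r + 1) := by
      have : 0 ≤ lz p r := by
        unfold lz
        apply div_nonneg _ (by positivity)
        apply mul_nonneg (by positivity)
        linarith
      positivity
    have h4 : ((p : ℝ) + 3 - r) * (r * a) ≤ ((p : ℝ) + 3) * (p * a) := by
      apply mul_le_mul (by linarith) (mul_le_mul_of_nonneg_right hrpR (by linarith))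
        (by positivity) (by positivity)
    have h5 : ((p : ℝ) + 3 - r) * a ≤ ((p : ℝ) + 3) * a :=
      mul_le_mul_of_nonneg_right (by linarith) (by linarith)
    nlinarith [mul_nonneg hp0 (le_trans zero_le_one ha0), mul_nonneg hp0 hr0,
      mul_nonneg (mul_nonneg hp0 hp0) (le_trans zero_le_one ha0)]

end Pool.HZ7
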